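import Mathlib

/-!
# No forest of a left-right pair has a rootless component (MP_b00f03_nt, Q1)
-/

namespace Pool.Agent.Results.MP_b00f03_nt.NoRootlessTrees

open Matrix

/-- The points `x + y i` of the field `K` with `x > 0` and `y > 0`. -/
def D0 (K : Subfield ℂ) : Set ℂ := {z | z ∈ K ∧ 0 < z.re ∧ 0 < z.im}

/-- The semigroup `SL₂(ℕ₀)`: nonnegative integer entries and determinant `1`
(written without subtraction). -/
def SL2N : Set (Matrix (Fin 2) (Fin 2) ℕ) := {M | M 0 0 * M 1 1 = M 0 1 * M 1 0 + 1}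

/-- The linear fractional action. -/
noncomputable def act (M : Matrix (Fin 2) (Fin 2) ℕ) (z : ℂ) : ℂ :=
  ((M 0 0 : ℂ) * z + M 0 1) / ((M 1 0 : ℂ) * z + M 1 1)

/-- `(L, R)` is a left-right pair: non-identity elements of `SL₂(ℕ₀)` whose images of `D0`
are disjoint. -/
structure IsLeftRightPair (K : Subfield ℂ) (L R : Matrix (Fin 2) (Fin 2) ℕ) : Prop where
  left_mem : L ∈ SL2N
  right_mem : R ∈ SL2N
  left_ne : L ≠ 1
  right_ne : R ≠ 1
  disjoint : Disjoint (act L '' D0 K) (act R '' D0 K)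

/-- The edge relation `z → w` of the directed graph `F(L,R)`: `w = L(z)` or `w = R(z)`. -/
def Edge (K : Subfield ℂ) (L R : Matrix (Fin 2) (Fin 2) ℕ) (z w : D0 K) : Prop :=
  (w : ℂ) = act L z ∨ (w : ℂ) = act R z

/-- The forest `F(L,R)` with vertex set `D0`; the connected components are those of this
underlying undirected graph. -/
def forest (K : Subfield ℂ) (L R : Matrix (Fin 2) (Fin 2) ℕ) : SimpleGraph (D0 K) :=
  SimpleGraph.fromRel (Edge K L R)

/-- A vertex without a parent. -/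
def IsOrphan (K : Subfield ℂ) (L R : Matrix (Fin 2) (Fin 2) ℕ) (w : D0 K) : Prop :=
  ∀ z : D0 K, ¬ Edge K L R z w

/-- A connected component is rootless if it contains no orphan. -/
def IsRootless (K : Subfield ℂ) (L R : Matrix (Fin 2) (Fin 2) ℕ)
    (c : (forest K L R).ConnectedComponent) : Prop :=
  ∀ w : D0 K, w ∈ c.supp → ¬ IsOrphan K L R w

lemma den_ne {M : Matrix (Fin 2) (Fin 2) ℕ} (hM : M ∈ SL2N) {z : ℂ} (hx : 0 < z.re)
    (_hy : 0 < z.im) : ((M 1 0 : ℂ) * z + M 1 1) ≠ 0 := by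
  intro h
  have h1 : ((M 1 0 : ℂ) * z + M 1 1).re = 0 := by rw [h]; simp
  simp at h1
  have hM' : M 0 0 * M 1 1 = M 0 1 * M 1 0 + 1 := hM
  have hd : 1 ≤ M 1 1 := by
    rcases Nat.eq_zero_or_pos (M 1 1) with h0 | h0
    · rw [h0] at hM'; simp at hM'
    · exact h0
  have hd' : (1 : ℝ) ≤ (M 1 1 : ℝ) := by exact_mod_cast hd
  have : 0 ≤ (M 1 0 : ℝ) * z.re := by positivity
  linarith

lemma mul_mem {M N : Matrix (Fin 2) (Fin 2) ℕ} (hM : M ∈ SL2N) (hN : N ∈ SL2N) :
    M * N ∈ SL2N := by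
  have hM' : M 0 0 * M 1 1 = M 0 1 * M 1 0 + 1 := hM
  have hN' : N 0 0 * N 1 1 = N 0 1 * N 1 0 + 1 := hN
  show (M * N) 0 0 * (M * N) 1 1 = (M * N) 0 1 * (M * N) 1 0 + 1
  simp only [Matrix.mul_apply, Fin.sum_univ_two]
  zify at hM' hN' ⊢
  linear_combination (M 0 0 * M 1 1 - M 0 1 * M 1 0 : ℤ) * hN' + hM'

lemma act_mul {M N : Matrix (Fin 2) (Fin 2) ℕ} (hM : M ∈ SL2N) (hN : N ∈ SL2N) {z : ℂ}
    (hx : 0 < z.re) (hy : 0 < z.im) (hx' : 0 < (act N z).re) (hy' : 0 < (act N z).im) :
    act (M * N) z = act M (act N z) := by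
  have h1 := den_ne hN hx hy
  have h2 := den_ne hM hx' hy'
  have h3 := den_ne (mul_mem hM hN) hx hy
  unfold act at h2 h3 ⊢
  simp only [Matrix.mul_apply, Fin.sum_univ_two] at h3 ⊢
  push_cast at h3 ⊢
  rw [div_eq_div_iff h3 h2]
  field_simp
  ring

/-- The sum of the entries. -/
def size (M : Matrix (Fin 2) (Fin 2) ℕ) : ℕ := M 0 0 + M 0 1 + M 1 0 + M 1 1

lemma pos_diag {M : Matrix (Fin 2) (Fin 2) ℕ} (hM : M ∈ SL2N) : 1 ≤ M 0 0 ∧ 1 ≤ M 1 1 := by
  have hM' : M 0 0 * M 1 1 = M 0 1 * M 1 0 + 1 := hM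
  constructor
  · rcases Nat.eq_zero_or_pos (M 0 0) with h0 | h0
    · rw [h0] at hM'; simp at hM'
    · exact h0
  · rcases Nat.eq_zero_or_pos (M 1 1) with h0 | h0
    · rw [h0] at hM'; simp at hM'
    · exact h0

lemma size_mul {M N : Matrix (Fin 2) (Fin 2) ℕ} (hM : M ∈ SL2N) (hN : N ∈ SL2N)
    (hN1 : N ≠ 1) : size M + 1 ≤ size (M * N) := by
  obtain ⟨hM0, hM1⟩ := pos_diag hM
  obtain ⟨hN0, hN1'⟩ := pos_diag hN
  have hN' : N 0 0 * N 1 1 = N 0 1 * N 1 0 + 1 := hN
  unfold size
  simp only [Matrix.mul_apply, Fin.sum_univ_two]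
  have hoff : 1 ≤ N 0 1 + N 1 0 := by
    by_contra hcon
    have h01 : N 0 1 = 0 := by omega
    have h10 : N 1 0 = 0 := by omega
    rw [h01, h10] at hN'
    simp at hN'
    apply hN1
    ext i j
    fin_cases i <;> fin_cases j <;> simp [h01, h10, hN'.1, hN'.2]
  nlinarith [Nat.mul_le_mul_left (M 0 0) hN0, Nat.mul_le_mul_left (M 0 1) hN1',
    Nat.mul_le_mul_left (M 1 0) hN0, Nat.mul_le_mul_left (M 1 1) hN1',
    Nat.mul_le_mul hM0 (le_refl (N 0 1)), Nat.mul_le_mul hM1 (le_refl (N 1 0)),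
    Nat.zero_le (M 0 1 * N 1 0), Nat.zero_le (M 1 0 * N 0 1)]

/-- Key bound: if `z = M(w)` with `z, w` in the open first quadrant then the entries of `M`
are bounded in terms of `z`. -/
lemma size_bound {M : Matrix (Fin 2) (Fin 2) ℕ} (hM : M ∈ SL2N) {w z : ℂ}
    (hwx : 0 < w.re) (hwy : 0 < w.im) (hx : 0 < z.re) (hy : 0 < z.im) (h : z = act M w) :
    (size M : ℝ) ≤ 2 + z.re + (1 + z.re) / z.im := by
  have hM' : M 0 0 * M 1 1 = M 0 1 * M 1 0 + 1 := hM
  have hden := den_ne hM hwx hwy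
  obtain ⟨hM0, hM1⟩ := pos_diag hM
  set a : ℝ := (M 0 0 : ℝ) with ha
  set b : ℝ := (M 0 1 : ℝ) with hb
  set c : ℝ := (M 1 0 : ℝ) with hc
  set d : ℝ := (M 1 1 : ℝ) with hd
  have hdet : a * d = b * c + 1 := by
    rw [ha, hb, hc, hd]; exact_mod_cast hM'
  have ha1 : 1 ≤ a := by rw [ha]; exact_mod_cast hM0
  have hd1 : 1 ≤ d := by rw [hd]; exact_mod_cast hM1
  have hb0 : 0 ≤ b := by rw [hb]; positivity
  have hc0 : 0 ≤ c := by rw [hc]; positivity
  -- the equation `z (c w + d) = a w + b`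
  have heq : z * ((M 1 0 : ℂ) * w + M 1 1) = (M 0 0 : ℂ) * w + M 0 1 := by
    rw [h]; unfold act; exact div_mul_cancel₀ _ hden
  have hre := congrArg Complex.re heq
  have him := congrArg Complex.im heq
  simp at hre him
  rw [← ha, ← hb, ← hc, ← hd] at hre
  rw [← ha, ← hc, ← hd] at him
  set x := z.re
  set y := z.im
  set p := w.re
  set q := w.im
  -- (dx - b) + i dy = (a - cx - i c y) (p + i q)
  have e1 : d * x - b = (a - c * x) * p + c * y * q := by linarith
  have e2 : d * y = (a - c * x) * q - c * y * p := by linarith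
  have hv : 0 < a - c * x := by
    have : 0 < (a - c * x) * q := by
      have : 0 < d * y := by positivity
      have : 0 ≤ c * y * p := by positivity
      linarith
    exact (pos_iff_pos_of_mul_pos this).mpr hwy
  have hu : 0 < d * x - b := by
    have : 0 < (a - c * x) * p := by positivity
    have : 0 ≤ c * y * q := by positivity
    linarith
  have huv : c * d * y ^ 2 ≤ (d * x - b) * (a - c * x) := by
    have : (d * x - b) * (a - c * x) - c * y * (d * y) =
        ((a - c * x) ^ 2 + (c * y) ^ 2) * p := by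
      rw [e1, e2]; ring
    have h2 : 0 ≤ ((a - c * x) ^ 2 + (c * y) ^ 2) * p := by positivity
    nlinarith
  have hsum : (a - c * x) * d + (d * x - b) * c = 1 := by linarith
  have hxle : b ≤ d * x := by linarith
  rcases Nat.eq_zero_or_pos (M 1 0) with hc' | hc'
  · -- upper triangular
    have hc00 : c = 0 := by rw [hc, hc']; simp
    rw [hc00] at hdet
    have hda : a * d = 1 := by linarith
    have hdd : d ≤ 1 := by nlinarith
    have haa : a ≤ 1 := by nlinarith
    have hd11 : d = 1 := le_antisymm hdd hd1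
    have hfrac : 0 ≤ (1 + x) / y := by positivity
    have : (size M : ℝ) = a + b + c + d := by
      unfold size; push_cast; rfl
    rw [this, hc00, hd11]
    rw [hd11] at hxle
    linarith
  · have hc1 : 1 ≤ c := by rw [hc]; exact_mod_cast hc'
    -- c d y ≤ 1/2
    have hcd : c * d * y ≤ 1 / 2 := by
      by_contra hcon
      push Not at hcon
      have hcdpos : 0 < c * d := by positivity
      have h3 : (c * d * y) ^ 2 ≤ c * d * ((d * x - b) * (a - c * x)) := by
        have : (c * d * y) ^ 2 = c * d * (c * d * y ^ 2) := by ring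
        rw [this]
        exact mul_le_mul_of_nonneg_left huv hcdpos.le
      have h4 : c * d * ((d * x - b) * (a - c * x)) ≤ 1 / 4 := by
        have e : c * d * ((d * x - b) * (a - c * x)) =
            (((a - c * x) * d + (d * x - b) * c) ^ 2 -
              ((a - c * x) * d - (d * x - b) * c) ^ 2) / 4 := by ring
        rw [e, hsum]
        have := sq_nonneg ((a - c * x) * d - (d * x - b) * c)
        linarith
      have h5 : (1 / 2 : ℝ) ^ 2 < (c * d * y) ^ 2 :=
        pow_lt_pow_left₀ hcon (by norm_num) two_ne_zero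
      linarith
    have hcy : c * y ≤ 1 / 2 := by
      have h0 : c * y * 1 ≤ c * y * d := mul_le_mul_of_nonneg_left hd1 (by positivity)
      have h1 : c * y * d = c * d * y := by ring
      linarith
    have hdy : d * y ≤ 1 / 2 := by
      have h0 : d * y * 1 ≤ d * y * c := mul_le_mul_of_nonneg_left hc1 (by positivity)
      have h1 : d * y * c = c * d * y := by ring
      linarith
    have hv1 : a - c * x ≤ 1 := by
      have : (a - c * x) * 1 ≤ (a - c * x) * d := mul_le_mul_of_nonneg_left hd1 hv.le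
      have : 0 ≤ (d * x - b) * c := by positivity
      linarith
    have hcle : c ≤ 1 / (2 * y) := by
      rw [le_div_iff₀ (by positivity)]; linarith
    have hdle : d ≤ 1 / (2 * y) := by
      rw [le_div_iff₀ (by positivity)]; linarith
    have hS : (size M : ℝ) = a + b + c + d := by
      unfold size; push_cast; rfl
    have hx' : 0 ≤ x := hx.le
    have h5 : a ≤ 1 + 1 / (2 * y) * x := by
      have := mul_le_mul_of_nonneg_right hcle hx'
      linarith
    have h6 : b ≤ 1 / (2 * y) * x := by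
      have := mul_le_mul_of_nonneg_right hdle hx'
      linarith
    have h7 : (1 + x) / y = 1 / (2 * y) * x + 1 / (2 * y) * x + 1 / (2 * y) + 1 / (2 * y) := by
      field_simp; ring
    rw [hS, h7]
    linarith

/-- In a component without orphans every vertex has an ancestor of each generation, given by a
word of large size. -/
lemma exists_word {K : Subfield ℂ} {L R : Matrix (Fin 2) (Fin 2) ℕ}
    (hLR : IsLeftRightPair K L R) (c : (forest K L R).ConnectedComponent)
    (hc : IsRootless K L R c) (z : D0 K) (hz : z ∈ c.supp) (n : ℕ) :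
    ∃ (M : Matrix (Fin 2) (Fin 2) ℕ) (w : D0 K), M ∈ SL2N ∧ n ≤ size M ∧ w ∈ c.supp ∧
      (z : ℂ) = act M w := by
  induction n with
  | zero =>
    refine ⟨1, z, ?_, Nat.zero_le _, hz, ?_⟩
    · show (1 : Matrix (Fin 2) (Fin 2) ℕ) 0 0 * (1 : Matrix (Fin 2) (Fin 2) ℕ) 1 1 =
        (1 : Matrix (Fin 2) (Fin 2) ℕ) 0 1 * (1 : Matrix (Fin 2) (Fin 2) ℕ) 1 0 + 1
      simp
    · simp [act]
  | succ n ih =>
    obtain ⟨M, w, hM, hn, hw, hzw⟩ := ih
    have hno := hc w hw
    unfold IsOrphan at hno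
    push Not at hno
    obtain ⟨v, hv⟩ := hno
    have hvc : v ∈ c.supp := by
      rw [SimpleGraph.ConnectedComponent.mem_supp_iff] at hw ⊢
      rw [← hw]
      apply SimpleGraph.ConnectedComponent.sound
      by_cases hvw : v = w
      · rw [hvw]
      · apply SimpleGraph.Adj.reachable
        unfold forest
        rw [SimpleGraph.fromRel_adj]
        exact ⟨hvw, Or.inl hv⟩
    have key : ∀ T : Matrix (Fin 2) (Fin 2) ℕ, T ∈ SL2N → T ≠ 1 → (w : ℂ) = act T v →
        ∃ (M : Matrix (Fin 2) (Fin 2) ℕ) (w : D0 K), M ∈ SL2N ∧ n + 1 ≤ size M ∧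
          w ∈ c.supp ∧ (z : ℂ) = act M w := by
      intro T hT hT1 hwT
      refine ⟨M * T, v, mul_mem hM hT, ?_, hvc, ?_⟩
      · have := size_mul hM hT hT1
        omega
      · have hvp := v.2.2
        have hwp := w.2.2
        rw [act_mul hM hT hvp.1 hvp.2 (by rw [← hwT]; exact hwp.1) (by rw [← hwT]; exact hwp.2),
          ← hwT]
        exact hzw
    rcases hv with hv | hv
    · exact key L hLR.left_mem hLR.left_ne hv
    · exact key R hLR.right_mem hLR.right_ne hv

/-- **Answer to Q1.** For every subfield `K` of `ℂ` not contained in `ℝ`, the set of left-right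
pairs whose forest has a rootless component is empty. -/
theorem result (K : Subfield ℂ) (_hK : ∃ z ∈ K, z.im ≠ 0) :
    {P : Matrix (Fin 2) (Fin 2) ℕ × Matrix (Fin 2) (Fin 2) ℕ | IsLeftRightPair K P.1 P.2 ∧
      ∃ c : (forest K P.1 P.2).ConnectedComponent, IsRootless K P.1 P.2 c} = ∅ := by
  rw [Set.eq_empty_iff_forall_notMem]
  rintro ⟨L, R⟩ ⟨hLR, c, hc⟩
  obtain ⟨z, hz⟩ := c.nonempty_supp
  obtain ⟨N, hN⟩ := exists_nat_gt (2 + (z : ℂ).re + (1 + (z : ℂ).re) / (z : ℂ).im)
  obtain ⟨M, w, hM, hn, -, hzw⟩ := exists_word hLR c hc z hz N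
  have := size_bound hM w.2.2.1 w.2.2.2 z.2.2.1 z.2.2.2 hzw
  have hN' : (N : ℝ) ≤ size M := by exact_mod_cast hn
  linarith

end Pool.Agent.Results.MP_b00f03_nt.NoRootlessTrees
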